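import Pool.Agent.MP_2876a2_nt.Converse

/-! Consequence of the classification: with at most five primes, the question is equivalent to the
infinitude of Mersenne primes. -/

namespace Pool.Agent.MP_2876a2_nt

open ArithmeticFunction

theorem fam_strictMono : StrictMono fun k : ℕ => 7 * 2 ^ k * (2 ^ (k + 1) - 1) := by
  refine strictMono_nat_of_lt_succ fun k => ?_
  have h1 : 0 < 2 ^ k := Nat.two_pow_pos k
  have h2 : 2 ^ (k + 1) = 2 * 2 ^ k := by ring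
  have h3 : 2 ^ (k + 1 + 1) = 4 * 2 ^ k := by ring
  exact Nat.mul_lt_mul'' (by omega) (by omega)

theorem infinite_iff_mersenne :
    {z : ℕ × ℕ | 0 < z.1 ∧ z.1 < z.2 ∧ Nat.Coprime z.1 z.2 ∧
      (z.1 : ℚ) / (sigma 1 z.1 : ℕ) + (z.2 : ℚ) / (sigma 1 z.2 : ℕ) = 1 ∧
      (z.1 * z.2).primeFactors.card ≤ 5}.Infinite ↔ {p : ℕ | (2 ^ p - 1).Prime}.Infinite := by
  constructor
  · intro h hf
    apply h
    refine ((hf.image fun p => ((135 : ℕ), 7 * 2 ^ (p - 1) * (2 ^ p - 1))).insert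
      (64, 173369889)).subset ?_
    rintro ⟨m, n⟩ ⟨h1, h2, h3⟩
    rcases (classification m n h1 h2).mp h3 with ⟨rfl, rfl⟩ | ⟨p, -, h5, rfl, rfl⟩
    · exact Set.mem_insert _ _
    · exact Set.mem_insert_of_mem _ ⟨p, h5, rfl⟩
  · intro h
    have h1 : ({p : ℕ | (2 ^ p - 1).Prime} \ Set.Iio 5).Infinite := h.sdiff (Set.finite_Iio 5)
    refine Set.infinite_of_injOn_mapsTo
      (f := fun p => ((135 : ℕ), 7 * 2 ^ (p - 1) * (2 ^ p - 1))) ?_ ?_ h1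
    · rintro p ⟨-, hp⟩ q ⟨-, hq⟩ hpq
      have hp' : 5 ≤ p := not_lt.mp hp
      have hq' : 5 ≤ q := not_lt.mp hq
      obtain ⟨k, rfl⟩ : ∃ k, p = k + 1 := ⟨p - 1, by omega⟩
      obtain ⟨l, rfl⟩ : ∃ l, q = l + 1 := ⟨q - 1, by omega⟩
      have h2 := (Prod.ext_iff.mp hpq).2
      simp only [Nat.add_sub_cancel] at h2
      rw [fam_strictMono.injective h2]
    · rintro p ⟨hp1, hp⟩
      have hp' : 5 ≤ p := not_lt.mp hp
      have h8 : 2 ^ 4 ≤ 2 ^ (p - 1) := Nat.pow_le_pow_right (by norm_num) (by omega)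
      have h9 : 2 ≤ 2 ^ p - 1 := Nat.Prime.two_le hp1
      have h10 : 7 * 2 ^ 4 * 2 ≤ 7 * 2 ^ (p - 1) * (2 ^ p - 1) :=
        Nat.mul_le_mul (Nat.mul_le_mul_left _ h8) h9
      exact ⟨by norm_num, by show 135 < 7 * 2 ^ (p - 1) * (2 ^ p - 1); omega, family hp' hp1⟩

end Pool.Agent.MP_2876a2_nt
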